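import Mathlib

set_option autoImplicit false
set_option linter.all false

/-! Growing the set of subset sums, with choices in triangular position. -/

namespace Pool.Agent.Q120.ZG

open Finset

/-- The elements of `H` which stabilise `Σ`. -/
def stab {A : Type} [AddCommGroup A] (H : AddSubgroup A) (Sg : Finset A) : AddSubgroup A where
  carrier := {x | x ∈ H ∧ ∀ y, y ∈ Sg ↔ x + y ∈ Sg}
  zero_mem' := ⟨H.zero_mem, fun y => by rw [zero_add]⟩
  add_mem' := by
    rintro x x' ⟨h1, h2⟩ ⟨h3, h4⟩
    refine ⟨H.add_mem h1 h3, fun y => ?_⟩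
    rw [h4 y, h2 (x' + y), add_assoc]
  neg_mem' := by
    rintro x ⟨h1, h2⟩
    refine ⟨H.neg_mem h1, fun y => ?_⟩
    have := h2 (-x + y)
    rw [add_neg_cancel_left] at this
    exact this.symm

theorem mem_stab_of {A : Type} [AddCommGroup A] [DecidableEq A] (H : AddSubgroup A)
    (Sg : Finset A) (x : A)
    (hx : x ∈ H) (h : ∀ y ∈ Sg, x + y ∈ Sg) : x ∈ stab H Sg := by
  refine ⟨hx, fun y => ⟨h y, fun hy => ?_⟩⟩
  have hmaps : Set.MapsTo (fun z => x + z) (Sg : Set A) (Sg : Set A) := fun z hz => h z hz
  have hinj : Set.InjOn (fun z => x + z) (Sg : Set A) := fun a _ b _ hab => by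
    simpa using hab
  have hsurj := Finset.surjOn_of_injOn_of_card_le _ hmaps hinj le_rfl
  obtain ⟨z, hz, hzy⟩ := hsurj hy
  have : z = y := by simpa using hzy
  rw [← this]; exact hz

/-- The swap effect of the selected gadget of round `r`. -/
def sv {A Q : Type} [AddCommGroup A] {R : ℕ} (D : Fin R × Q → A) (ε : Fin R × Q → Fin R × Q → A)
    (sel : Fin R → Q) (B : Finset (Fin R × Q)) (r : Fin R) : A :=
  D (r, sel r) + ∑ b ∈ B, ε (r, sel r) b

theorem grow {A Q : Type} [AddCommGroup A] [Fintype A] [DecidableEq A] [Nonempty Q]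
    [DecidableEq Q] (H : AddSubgroup A) {R : ℕ} (D : Fin R × Q → A)
    (ε : Fin R × Q → Fin R × Q → A)
    (hD : ∀ p, D p ∈ H) (hε : ∀ p p', ε p p' ∈ H) (htri : ∀ p p', p.1 < p'.1 → ε p p' = 0)
    (hR : ∀ r : Fin R, ∀ M : AddSubgroup A, M < H → ∃ q, ε (r, q) (r, q) ∉ M) :
    ∀ n ≤ R, ∃ (sel : Fin R → Q) (B : Finset (Fin R × Q)), (∀ p ∈ B, p.1.val < n) ∧
      min (n + 1) (Nat.card H) ≤ (((univ.filter (fun r : Fin R => r.val < n)).powerset).image
        (fun Y => ∑ r ∈ Y, sv D ε sel B r)).card := by
  classical
  intro n
  induction n with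
  | zero =>
    intro _
    refine ⟨fun _ => Classical.arbitrary Q, ∅, by simp, ?_⟩
    have : (univ.filter (fun r : Fin R => r.val < 0)) = ∅ := by simp
    rw [this]
    simp
  | succ n ih =>
    intro hn
    obtain ⟨sel, B, hB, hcard⟩ := ih (by omega)
    set Sg := (((univ.filter (fun r : Fin R => r.val < n)).powerset).image
        (fun Y => ∑ r ∈ Y, sv D ε sel B r)) with hSg
    let i : Fin R := ⟨n, by omega⟩
    have hsvH : ∀ (sel : Fin R → Q) (B : Finset (Fin R × Q)) (r : Fin R), sv D ε sel B r ∈ H := by
      intro sel B r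
      exact H.add_mem (hD _) (H.sum_mem fun b _ => hε _ _)
    have hSgH : ∀ x ∈ Sg, x ∈ H := by
      intro x hx
      rw [hSg, mem_image] at hx
      obtain ⟨Y, _, rfl⟩ := hx
      exact H.sum_mem fun r _ => hsvH _ _ _
    have h0 : (0 : A) ∈ Sg := by
      rw [hSg, mem_image]
      exact ⟨∅, by simp, by simp⟩
    -- the general form of the new set of sums
    have hnew : ∀ (sel' : Fin R → Q) (B' : Finset (Fin R × Q)),
        (∀ r : Fin R, r.val < n → sv D ε sel' B' r = sv D ε sel B r) →
        (∀ x ∈ Sg, x ∈ (((univ.filter (fun r : Fin R => r.val < n + 1)).powerset).image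
          (fun Y => ∑ r ∈ Y, sv D ε sel' B' r))) ∧
        (∀ x ∈ Sg, sv D ε sel' B' i + x ∈
          (((univ.filter (fun r : Fin R => r.val < n + 1)).powerset).image
          (fun Y => ∑ r ∈ Y, sv D ε sel' B' r))) := by
      intro sel' B' hsame
      constructor
      · intro x hx
        rw [hSg, mem_image] at hx
        obtain ⟨Y, hY, rfl⟩ := hx
        rw [mem_image]
        rw [mem_powerset] at hY
        refine ⟨Y, ?_, ?_⟩
        · rw [mem_powerset]
          intro r hr
          have := (mem_filter.1 (hY hr)).2
          exact mem_filter.2 ⟨mem_univ _, by omega⟩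
        · exact sum_congr rfl fun r hr => hsame r (mem_filter.1 (hY hr)).2
      · intro x hx
        rw [hSg, mem_image] at hx
        obtain ⟨Y, hY, rfl⟩ := hx
        rw [mem_image]
        rw [mem_powerset] at hY
        have hiY : i ∉ Y := fun h => by
          have := (mem_filter.1 (hY h)).2
          simp [i] at this
        refine ⟨insert i Y, ?_, ?_⟩
        · rw [mem_powerset]
          intro r hr
          rcases mem_insert.1 hr with h | h
          · subst h; exact mem_filter.2 ⟨mem_univ _, by simp [i]⟩
          · have := (mem_filter.1 (hY h)).2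
            exact mem_filter.2 ⟨mem_univ _, by omega⟩
        · rw [sum_insert hiY]
          congr 1
          exact sum_congr rfl fun r hr => hsame r (mem_filter.1 (hY hr)).2
    by_cases hfull : Nat.card H ≤ Sg.card
    · refine ⟨sel, B, fun p hp => by have := hB p hp; omega, ?_⟩
      have h1 := (hnew sel B (fun r _ => rfl)).1
      have h2 := Finset.card_le_card (show Sg ⊆ _ from fun x hx => h1 x hx)
      exact (min_le_right _ _).trans (hfull.trans h2)
    · push Not at hfull
      have hMle : stab H Sg ≤ H := fun x hx => hx.1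
      have hMlt : stab H Sg < H := by
        refine lt_of_le_of_ne hMle ?_
        intro heq
        have : ∀ x ∈ H, x ∈ Sg := by
          intro x hx
          rw [← heq] at hx
          have := (hx.2 0).1 h0
          rwa [add_zero] at this
        have h3 : Nat.card H ≤ Sg.card := by
          have : Nat.card H ≤ Nat.card (Sg : Set A) :=
            Nat.card_mono (Set.toFinite _) (fun x hx => this x hx)
          simpa using this
        omega
      obtain ⟨q, hq⟩ := hR i _ hMlt
      let sel' := Function.update sel i q
      have hseli : sel' i = q := Function.update_self _ _ _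
      have hselr : ∀ r : Fin R, r.val < n → sel' r = sel r := by
        intro r hr
        exact Function.update_of_ne (fun h => by rw [h] at hr; simp [i] at hr) _ _
      have hexB : ∃ B' : Finset (Fin R × Q), (∀ p ∈ B', p.1.val < n + 1) ∧
          (∀ r : Fin R, r.val < n → sv D ε sel' B' r = sv D ε sel B r) ∧
          sv D ε sel' B' i ∉ stab H Sg := by
        by_cases hs : sv D ε sel' B i ∈ stab H Sg
        · refine ⟨insert (i, q) B, ?_, ?_, ?_⟩
          · intro p hp
            rcases mem_insert.1 hp with h | h
            · rw [h]; simp [i]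
            · have := hB p h; omega
          · intro r hr
            have hnot : (i, q) ∉ B := fun h => by
              have := hB _ h
              simp [i] at this
            unfold sv
            rw [sum_insert hnot, hselr r hr, htri (r, sel r) (i, q) (by
              show r < i
              exact Fin.lt_def.2 hr), zero_add]
          · intro hmem
            apply hq
            have hnot : (i, q) ∉ B := fun h => by
              have := hB _ h
              simp [i] at this
            have e : sv D ε sel' (insert (i, q) B) i = ε (i, q) (i, q) + sv D ε sel' B i := by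
              unfold sv
              rw [sum_insert hnot, hseli]
              abel
            rw [e] at hmem
            exact ((stab H Sg).add_mem_cancel_right hs).1 hmem
        · refine ⟨B, fun p hp => by have := hB p hp; omega, ?_, hs⟩
          intro r hr
          unfold sv
          rw [hselr r hr]
      obtain ⟨B', hB', hsame, hns⟩ := hexB
      refine ⟨sel', B', hB', ?_⟩
      obtain ⟨h1, h2⟩ := hnew sel' B' hsame
      set Sg' := (((univ.filter (fun r : Fin R => r.val < n + 1)).powerset).image
          (fun Y => ∑ r ∈ Y, sv D ε sel' B' r)) with hSg'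
      have hsub : Sg ⊆ Sg' := fun x hx => h1 x hx
      have hlt : Sg.card < Sg'.card := by
        refine lt_of_le_of_ne (card_le_card hsub) ?_
        intro heq
        have hEq : Sg = Sg' := Finset.eq_of_subset_of_card_le hsub heq.ge
        apply hns
        apply mem_stab_of H Sg _ (hsvH _ _ _)
        intro y hy
        have := h2 y hy
        rw [← hEq] at this
        exact this
      have : n + 1 ≤ Sg.card := by
        have h3 := hcard
        rw [min_le_iff] at h3
        rcases h3 with h3 | h3
        · exact h3
        · omega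
      exact (min_le_left _ _).trans (by omega)

/-- With enough rounds all of `H` is reached. -/
theorem grow_full {A Q : Type} [AddCommGroup A] [Fintype A] [DecidableEq A] [Nonempty Q]
    [DecidableEq Q] (H : AddSubgroup A) {R : ℕ} (hRc : Fintype.card A ≤ R) (D : Fin R × Q → A)
    (ε : Fin R × Q → Fin R × Q → A)
    (hD : ∀ p, D p ∈ H) (hε : ∀ p p', ε p p' ∈ H) (htri : ∀ p p', p.1 < p'.1 → ε p p' = 0)
    (hR : ∀ r : Fin R, ∀ M : AddSubgroup A, M < H → ∃ q, ε (r, q) (r, q) ∉ M) :
    ∃ (sel : Fin R → Q) (B : Finset (Fin R × Q)), ∀ h ∈ H, ∃ Y : Finset (Fin R),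
      ∑ r ∈ Y, sv D ε sel B r = h := by
  classical
  obtain ⟨sel, B, -, hcard⟩ := grow H D ε hD hε htri hR R le_rfl
  refine ⟨sel, B, ?_⟩
  set Sg := (((univ.filter (fun r : Fin R => r.val < R)).powerset).image
        (fun Y => ∑ r ∈ Y, sv D ε sel B r)) with hSg
  have hH : Nat.card H ≤ Fintype.card A := by
    rw [← Nat.card_eq_fintype_card]
    exact Nat.card_le_card_of_injective (fun x : H => (x : A)) Subtype.val_injective
  have hle : Nat.card H ≤ Sg.card := by
    rw [min_eq_right (by omega)] at hcard
    exact hcard
  have hsub : Sg ⊆ (univ.filter (fun x : A => x ∈ H)) := by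
    intro x hx
    rw [hSg, mem_image] at hx
    obtain ⟨Y, _, rfl⟩ := hx
    exact mem_filter.2 ⟨mem_univ _, H.sum_mem fun r _ =>
      H.add_mem (hD _) (H.sum_mem fun b _ => hε _ _)⟩
  have hcardH : (univ.filter (fun x : A => x ∈ H)).card = Nat.card H := by
    rw [Nat.card_eq_fintype_card, Fintype.card_subtype]
  have hEq := Finset.eq_of_subset_of_card_le hsub (by rw [hcardH]; exact hle)
  intro h hh
  have hmem : h ∈ Sg := by rw [hEq]; exact mem_filter.2 ⟨mem_univ _, hh⟩
  rw [hSg, mem_image] at hmem
  obtain ⟨Y, _, hY⟩ := hmem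
  exact ⟨Y, hY⟩

end Pool.Agent.Q120.ZG
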