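import Mathlib
import Pool.Agent.H730R3.Main

set_option autoImplicit false
set_option linter.all false

/-! Generalisation to finite abelian groups: Ramsey for quadratic set functions. -/

namespace Pool.Agent.Q120.ZG

open Finset Pool.Agent.H730R3

/-- Ramsey for quadratic set functions: a set of size `2km` on which nothing changes. -/
theorem block_ramseyA (A : Type) [AddCommGroup A] [Fintype A] (k : ℕ) (hkA : ∀ a : A, k • a = 0)
    (m : ℕ) :
    ∃ N : ℕ, ∀ (ι : Type) [LinearOrder ι] (F : Finset ι → A) (a : ι → A)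
      (B : ι → ι → A), IsQuad F a B → ∀ T : Finset ι, N ≤ T.card →
      ∃ Y ⊆ T, Y.card = 2 * k * m ∧ F Y = F ∅ := by
  obtain ⟨N, hN⟩ := ramsey (A × A) (2 * k * m + 1)
  refine ⟨N, ?_⟩
  intro ι _ F a B hF T hT
  obtain ⟨T', hT', hc, ⟨α, β⟩, hγ⟩ := hN ι (fun i j => (a i, B i j)) T hT
  have hne : T'.Nonempty := by rw [← card_pos]; omega
  refine ⟨T'.erase (T'.max' hne), (erase_subset _ _).trans hT', ?_, ?_⟩
  · rw [card_erase_of_mem (T'.max'_mem hne), hc]; rfl
  · have hcard : (T'.erase (T'.max' hne)).card = 2 * k * m := by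
      rw [card_erase_of_mem (T'.max'_mem hne), hc]; rfl
    have h1 : ∀ i ∈ T'.erase (T'.max' hne), i ∈ T' ∧ i < T'.max' hne := by
      intro i hi
      rw [mem_erase] at hi
      exact ⟨hi.2, lt_of_le_of_ne (T'.le_max' i hi.2) hi.1⟩
    rw [hF.homog α β _ (fun i hi => congrArg Prod.fst (hγ i (h1 i hi).1 _ (T'.max'_mem hne) (h1 i hi).2))
      (fun i hi j hj hij => congrArg Prod.snd (hγ i (h1 i hi).1 j (h1 j hj).1 hij)), hcard]
    have e1 : (2 * k * m) • α = 0 := by
      rw [show 2 * k * m = (2 * m) * k by ring, mul_smul, hkA, smul_zero]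
    have e2 : ((2 * k * m).choose 2) • β = 0 := by
      have : (2 * k * m).choose 2 = k * (m * (2 * k * m - 1)) := by
        rw [Nat.choose_two_right]
        rw [show 2 * k * m * (2 * k * m - 1) = 2 * (k * (m * (2 * k * m - 1))) by ring]
        simp
      rw [this, mul_comm, mul_smul, hkA, smul_zero]
    rw [e1, e2]; simp

end Pool.Agent.Q120.ZG
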