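import Mathlib
import Pool.Agent.H730R3.PrimeStep
import Pool.Agent.Q120.ZG.Grow

set_option autoImplicit false
set_option linter.all false

/-! The group step: killing the sum by swaps inside gadgets. -/

namespace Pool.Agent.Q120.ZG

open Finset Pool.Agent.H730R3

theorem groupStep (A : Type) [AddCommGroup A] [Fintype A] (V X Q : Type) [Fintype V]
    [DecidableEq V] [Nonempty Q] (R : ℕ) (hRA : Fintype.card A ≤ R)
    (G : SimpleGraph V) [DecidableRel G.Adj]
    (f : Sym2 X → A) (H : AddSubgroup A) 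
    (X1 : Set X) (φ : V → X) (hφi : Function.Injective φ) (hφX : ∀ v, φ v ∈ X1)
    (c : Fin R × Q → Fin 4 → V)
    (hc : Function.Injective (fun p : (Fin R × Q) × Fin 4 => c p.1 p.2))
    (b : Prop) (hb : ∀ i j, i ≠ j → (G.Adj (c i 0) (c j 0) ↔ b) ∧ (G.Adj (c i 0) (c j 1) ↔ b) ∧
      (G.Adj (c i 1) (c j 0) ↔ b) ∧ (G.Adj (c i 1) (c j 1) ↔ b))
    (hdist : ∀ i, ¬ (G.Adj (c i 0) (c i 2) ↔ G.Adj (c i 1) (c i 2)))
    (hiso : ∀ i v, ¬ G.Adj v (c i 3))
    (htri : ∀ i j : Fin R × Q, i.1 < j.1 → (G.Adj (c i 0) (c j 2) ↔ G.Adj (c i 1) (c j 2)))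
    (htw1 : ∀ i, ∀ x ∈ X1, x ≠ φ (c i 0) → x ≠ φ (c i 1) → f s(x, φ (c i 0)) - f s(x, φ (c i 1)) ∈ H)
    (htw2 : ∀ i, ∀ x ∈ X1, x ≠ φ (c i 2) → x ≠ φ (c i 3) → f s(x, φ (c i 2)) - f s(x, φ (c i 3)) ∈ H)
    (hdel : ∀ r : Fin R, ∀ M : AddSubgroup A, M < H → ∃ q,
      Del f (φ (c (r, q) 0)) (φ (c (r, q) 1)) (φ (c (r, q) 2)) (φ (c (r, q) 3)) ∉ M)
    (hS : S G f φ ∈ H) :
    ∃ φ' : V → X, Function.Injective φ' ∧ S G f φ' = 0 := by
  classical
  -- the swapped map
  let σ : Fin 4 → Fin 4 := ![1, 0, 3, 2]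
  let ψ : V → X := Function.extend (fun p : (Fin R × Q) × Fin 4 => c p.1 p.2)
    (fun p => φ (c p.1 (σ p.2))) φ
  have hψ : ∀ i a, ψ (c i a) = φ (c i (σ a)) := fun i a =>
    hc.extend_apply (fun p : (Fin R × Q) × Fin 4 => φ (c p.1 (σ p.2))) φ (i, a)
  have hψ0 : ∀ i, ψ (c i 0) = φ (c i 1) := fun i => hψ i 0
  have hψ1 : ∀ i, ψ (c i 1) = φ (c i 0) := fun i => hψ i 1
  have hψ2 : ∀ i, ψ (c i 2) = φ (c i 3) := fun i => hψ i 2
  have hψ3 : ∀ i, ψ (c i 3) = φ (c i 2) := fun i => hψ i 3
  have hcne : ∀ i j a b, (i ≠ j ∨ a ≠ b) → c i a ≠ c j b := by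
    intro i j a b hor h
    have := hc (a₁ := (i, a)) (a₂ := (j, b)) h
    rw [Prod.ext_iff] at this
    rcases hor with h' | h'
    · exact h' this.1
    · exact h' this.2
  let W : (Fin R × Q) × Bool → Finset V :=
    fun p => if p.2 = true then {c p.1 2, c p.1 3} else {c p.1 0, c p.1 1}
  have hWt : ∀ i, W (i, true) = {c i 2, c i 3} := fun i => by simp [W]
  have hWf : ∀ i, W (i, false) = {c i 0, c i 1} := fun i => by simp [W]
  have hW : ∀ p p', p ≠ p' → Disjoint (W p) (W p') := by
    rintro ⟨i, x⟩ ⟨j, y⟩ hne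
    rw [disjoint_left]
    intro v hv hv'
    rcases x with _ | _ <;> rcases y with _ | _
    · have hij : i ≠ j := fun h => hne (by rw [h])
      rw [hWf] at hv hv'
      simp only [mem_insert, mem_singleton] at hv hv'
      rcases hv with rfl | rfl <;> rcases hv' with h | h <;> exact hcne _ _ _ _ (Or.inl hij) h
    · rw [hWf] at hv
      rw [hWt] at hv'
      simp only [mem_insert, mem_singleton] at hv hv'
      rcases hv with rfl | rfl <;> rcases hv' with h | h <;>
        exact hcne _ _ _ _ (Or.inr (by decide)) h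
    · rw [hWt] at hv
      rw [hWf] at hv'
      simp only [mem_insert, mem_singleton] at hv hv'
      rcases hv with rfl | rfl <;> rcases hv' with h | h <;>
        exact hcne _ _ _ _ (Or.inr (by decide)) h
    · have hij : i ≠ j := fun h => hne (by rw [h])
      rw [hWt] at hv hv'
      simp only [mem_insert, mem_singleton] at hv hv'
      rcases hv with rfl | rfl <;> rcases hv' with h | h <;> exact hcne _ _ _ _ (Or.inl hij) h
  have hquad := isQuad_blocks G f φ ψ W hW
  set F : Finset ((Fin R × Q) × Bool) → A := fun Y => S G f (mix φ ψ (Y.biUnion W)) with hF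
  set a : (Fin R × Q) × Bool → A := fun i => S G f (mix φ ψ (W i)) - S G f φ with ha
  set Bq : (Fin R × Q) × Bool → (Fin R × Q) × Bool → A :=
    fun i j => ∑ u ∈ W i, ∑ v ∈ W j, if G.Adj u v then d2 f φ ψ u v else 0 with hBq
  have hF0 : F ∅ = S G f φ := by simp only [hF, biUnion_empty, mix_empty]
  -- invariants of all partial swaps
  have hinv : ∀ Z : Finset ((Fin R × Q) × Bool), Function.Injective (mix φ ψ (Z.biUnion W)) ∧
      (∀ v, mix φ ψ (Z.biUnion W) v ∈ X1) ∧ F Z ∈ H := by
    intro Z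
    induction Z using Finset.induction_on with
    | empty =>
      refine ⟨?_, ?_, ?_⟩
      · rw [biUnion_empty, mix_empty]; exact hφi
      · rw [biUnion_empty, mix_empty]; exact hφX
      · rw [hF0]; exact hS
    | insert p Z hp ih =>
      obtain ⟨ih1, ih2, ih3⟩ := ih
      have hdis : Disjoint (W p) (Z.biUnion W) := by
        rw [disjoint_biUnion_right]
        intro j hj
        exact hW p j (fun h => hp (h ▸ hj))
      obtain ⟨i, x⟩ := p
      have key : ∃ u v, W (i, x) = {u, v} ∧ u ≠ v ∧ ψ u = φ v ∧ ψ v = φ u ∧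
          ∀ y ∈ X1, y ≠ φ u → y ≠ φ v → f s(y, φ u) - f s(y, φ v) ∈ H := by
        rcases x with _ | _
        · exact ⟨c i 0, c i 1, hWf i, hcne _ _ _ _ (Or.inr (by decide)), hψ0 i, hψ1 i, htw1 i⟩
        · exact ⟨c i 2, c i 3, hWt i, hcne _ _ _ _ (Or.inr (by decide)), hψ2 i, hψ3 i, htw2 i⟩
      obtain ⟨u, v, hWuv, huv, hu, hv, htw⟩ := key
      rw [hWuv] at hdis
      have huZ : u ∉ Z.biUnion W := fun h => disjoint_left.1 hdis (by simp) h
      have hvZ : v ∉ Z.biUnion W := fun h => disjoint_left.1 hdis (by simp) h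
      have hms := mix_swap φ ψ (Z.biUnion W) u v huv huZ hvZ hu hv
      have hmu : mix φ ψ (Z.biUnion W) u = φ u := by simp [mix, huZ]
      have hmv : mix φ ψ (Z.biUnion W) v = φ v := by simp [mix, hvZ]
      refine ⟨?_, ?_, ?_⟩
      · rw [biUnion_insert, hWuv, hms]
        exact ih1.comp (Equiv.injective _)
      · rw [biUnion_insert, hWuv, hms]
        intro t
        exact ih2 _
      · simp only [hF]
        rw [biUnion_insert, hWuv, hms]
        have h1 := S_swap_mem H G f (mix φ ψ (Z.biUnion W)) u v (by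
          intro t htu htv
          rw [hmu, hmv]
          apply htw _ (ih2 t)
          · intro h; rw [← hmu] at h; exact htu (ih1 h)
          · intro h; rw [← hmv] at h; exact htv (ih1 h))
        have h2 := H.add_mem h1 ih3
        simp only [hF, sub_add_cancel] at h2
        exact h2
  have haH : ∀ p, a p ∈ H := by
    intro p
    have h1 := (hinv {p}).2.2
    simp only [hF, singleton_biUnion] at h1
    simp only [ha]
    exact H.sub_mem h1 hS
  have hBqH : ∀ p p', p ≠ p' → Bq p p' ∈ H := by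
    intro p p' hne
    have h1 := hquad p {p'} (by simpa using hne)
    rw [sum_singleton] at h1
    have h2 : Bq p p' = F (insert p {p'}) - F {p'} - a p := by
      rw [h1]; abel
    rw [h2]
    exact H.sub_mem (H.sub_mem (hinv _).2.2 (hinv _).2.2) (haH p)
  have hyy : ∀ i j, i ≠ j → Bq (i, false) (j, false) = 0 := by
    intro i j hij
    simp only [hBq]
    rw [hWf, hWf, d2_swaps G f φ ψ _ _ _ _ (hcne _ _ _ _ (Or.inr (by decide)))
      (hcne _ _ _ _ (Or.inr (by decide))) (hψ0 i) (hψ1 i) (hψ0 j) (hψ1 j)]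
    obtain ⟨b1, b2, b3, b4⟩ := hb i j hij
    simp only [b1, b2, b3, b4]
    split_ifs <;> simp
  have hyb : ∀ (M : AddSubgroup A) i, 
      Del f (φ (c i 0)) (φ (c i 1)) (φ (c i 2)) (φ (c i 3)) ∉ M → Bq (i, false) (i, true) ∉ M := by
    intro M i hdeli
    simp only [hBq]
    rw [hWf, hWt, d2_swaps G f φ ψ _ _ _ _ (hcne _ _ _ _ (Or.inr (by decide)))
      (hcne _ _ _ _ (Or.inr (by decide))) (hψ0 i) (hψ1 i) (hψ2 i) (hψ3 i)]
    rw [if_neg (hiso i (c i 0)), if_neg (hiso i (c i 1))]
    have hd := hdist i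
    by_cases h1 : G.Adj (c i 0) (c i 2)
    · have h2 : ¬ G.Adj (c i 1) (c i 2) := fun h => hd ⟨fun _ => h, fun _ => h1⟩
      rw [if_pos h1, if_neg h2]
      simpa using hdeli
    · have h2 : G.Adj (c i 1) (c i 2) := by
        by_contra h
        exact hd ⟨fun h' => absurd h' h1, fun h' => absurd h' h⟩
      rw [if_neg h1, if_pos h2]
      intro h
      apply hdeli
      have := M.neg_mem h
      simpa using this
  have htri' : ∀ p p' : Fin R × Q, p.1 < p'.1 → Bq (p, false) (p', true) = 0 := by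
    intro i j hij
    simp only [hBq]
    rw [hWf, hWt, d2_swaps G f φ ψ _ _ _ _ (hcne _ _ _ _ (Or.inr (by decide)))
      (hcne _ _ _ _ (Or.inr (by decide))) (hψ0 i) (hψ1 i) (hψ2 j) (hψ3 j)]
    rw [if_neg (hiso j (c i 0)), if_neg (hiso j (c i 1))]
    have h := htri i j hij
    simp only [h]
    simp
  obtain ⟨sel, B, hreach⟩ := grow_full H hRA (fun p => a (p, false))
    (fun p p' => Bq (p, false) (p', true)) (fun p => haH _) (fun p p' => hBqH _ _ (by simp))
    htri' (by
      intro r M hM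
      obtain ⟨q, hq⟩ := hdel r M hM
      exact ⟨q, hyb M (r, q) hq⟩)
  obtain ⟨Y, hY⟩ := hreach (-F (B.image (fun i => (i, true)))) (H.neg_mem (hinv _).2.2)
  have hsum : ∀ Y' : Finset (Fin R),
      F (Y'.image (fun r => ((r, sel r), false)) ∪ B.image (fun i => (i, true)))
        = F (B.image (fun i => (i, true))) + ∑ r ∈ Y', sv (fun p => a (p, false))
          (fun p p' => Bq (p, false) (p', true)) sel B r := by
    intro Y'
    induction Y' using Finset.induction_on with
    | empty => simp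
    | insert i Y' hi ih =>
      rw [image_insert, insert_union, hquad ((i, sel i), false) _ (by simpa using hi),
        ih, sum_insert hi]
      have hdj : Disjoint (Y'.image (fun r => ((r, sel r), false)))
          (B.image (fun i => (i, true))) := by
        rw [disjoint_left]
        intro p hp hp'
        rw [mem_image] at hp hp'
        obtain ⟨x, _, rfl⟩ := hp
        obtain ⟨y, _, hy⟩ := hp'
        simp at hy
      rw [sum_union hdj, sum_image (fun x _ y _ hxy => (Prod.ext_iff.1 (Prod.ext_iff.1 hxy).1).1),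
        sum_image (fun x _ y _ hxy => (Prod.ext_iff.1 hxy).1)]
      have h0 : ∑ j ∈ Y', Bq ((i, sel i), false) ((j, sel j), false) = 0 :=
        sum_eq_zero (fun j hj => hyy _ _ (fun h => by
          have e : i = j := (Prod.ext_iff.1 h).1
          apply hi
          rw [e]
          exact hj))
      rw [h0, zero_add]
      unfold sv
      abel
  refine ⟨mix φ ψ ((Y.image (fun r => ((r, sel r), false)) ∪
    B.image (fun i => (i, true))).biUnion W), (hinv _).1, ?_⟩
  have := hsum Y
  rw [hY, add_neg_cancel] at this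
  exact this

end Pool.Agent.Q120.ZG
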